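import Pool.Agent.Helper91.IX.Asm
import Pool.Agent.Helper91.IX.TB
import Pool.Agent.Helper91.IX.TR
import Pool.Agent.Helper91.IX.DIV
import Pool.Agent.Helper91.IX.Cop
import Pool.Agent.Helper91.IX.FIN

/-!
# The torsion of abelian varieties over infinite extensions with a Galois group of bounded exponent

Let `K` be a number field (or any field of characteristic zero), `e ≥ 1`, and let `F / K` be a Galois extension of
infinite degree such that `σ ^ e = 1` for all `σ ∈ Gal(F / K)`; for example the compositum of all extensions of `K` of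
degree at most `d` (`e = d!`, part (0)), or any Galois extension with bounded local degrees. Let `A` be an abelian
variety over `K` of dimension `g`, `m = 2 g`.

(1) For every prime number `l` all points of `l`-power order of `A(F)` are defined over one Galois extension `L ⊆ F` of
`K` of degree at most `degBound m e`. The bound does not depend on `A`, `K`, `F` and `l`.

(2) If the torsion points of `A` of degree at most `degBound m e` over `K` have orders at most `T`, then the torsion group
of `A(F)` is finite of order at most `(T!) ^ m`.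

(3) So strong uniform boundedness in a fixed dimension `g` over `K` (a bound, for every `d`, for the orders of the torsion
points of degree at most `d` over `K` on all `g`-dimensional abelian varieties over `K`) is equivalent to its form over
infinite extensions: for all `e` and `d` there is `T` such that, for all abelian varieties `A` over `K` of dimension `g` and
all Galois extensions `F / K` with a group of exponent `e`, the torsion group of `A(F)` is finite of order at most `T` and
the torsion points of `A` of degree at most `d` over `F` have orders at most `T`. The same is true uniformly in families of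
fields `K`. For `g = 1` and all fields of degree at most `n` the first statement is the theorem of Merel (which is not
used here): for all `n`, `e` there is a bound for the order of the torsion group of `E(F)`, where `E` is an elliptic curve
over any number field `K` of degree at most `n` and `F` is any Galois extension of `K` with a group of exponent `e`.

(4) The question Q1 for all `g` (rational torsion points on principally polarised abelian varieties over `K`) is
equivalent to the statement over infinite extensions of (3) for all `g`, also uniformly in families of fields.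

An abelian variety `A` over `K` enters through the module `M = A(K̄)` of `G = Gal(K̄ / K)`, and `F` through the normal
subgroup `N = Gal(K̄ / F)`; the degree of a point is the index of its stabiliser.

Proof of (1). A group `Γ` of exponent dividing `e` which acts faithfully on a finite abelian `l`-group `V`
with `|V[L]| ≤ L ^ m` for all `L` has order at most `degBound m e`. If `l ∤ e`, the group `Γ` acts faithfully on `V / l V`;
for `l > m` the elements of `Γ` are determined by the traces of their products with a basis of the span of `Γ` (Burnside),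
and each trace takes at most `e ^ m` values. If `l ∣ e`, the elements `σ` of `Γ` which act trivially on `V / e² V` satisfy
`e (σ - 1) = 0`.

The modules are due to helpers 57 (`TB`: the traces), 2 (`TR`: Burnside's bound), 37 (`DIV`: `l ∣ e`), 18 (`Cop`: `l ∤ e`)
and 72 (`FIN`: the group `Γ`); the assembly `Asm` and this file to helper 91.
-/

set_option autoImplicit false

open Pool.Agent.Helper91

namespace Pool.Agent.Results.MP_160b6c_nt.BoundedExponent

/-- The bound for the degree. -/
def degBound (m e : ℕ) : ℕ :=
  (e ^ (2 * m)).factorial * (e ^ m) ^ (e ^ m) + e ^ (m ^ 3) + (m ^ m).factorial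

/-- For every `L > 0` the elements of `M` killed by `L` form a group generated by `m` elements. (For an abelian variety
`A` the module `M = A(K̄)` has this property with `m = 2 dim A`.) -/
def TorsionRank (M : Type) [AddCommGroup M] (m : ℕ) : Prop :=
  ∀ L : ℕ, 0 < L → ∃ t : Fin m → M, (∀ j, L • t j = 0) ∧
    ∀ x : M, L • x = 0 → x ∈ AddSubgroup.closure (Set.range t)

/-- The torsion points over the field fixed by `N`. -/
def torsionOver {G : Type} [Group G] (N : Subgroup G) (M : Type) [AddCommGroup M] [DistribMulAction G M] : Set M :=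
  {P | 0 < addOrderOf P ∧ ∀ σ ∈ N, σ • P = P}

/-- The degree of a point: the number of its conjugates (`0` if there are infinitely many). -/
noncomputable def degree (G : Type) [Group G] {M : Type} [AddCommGroup M] [DistribMulAction G M] (P : M) : ℕ :=
  (MulAction.stabilizer G P).index

/-- The degree of a point over the field fixed by `N`: the number of its conjugates under `N` (`0` if there are infinitely
many). -/
noncomputable def degreeOver {G : Type} [Group G] (N : Subgroup G) {M : Type} [AddCommGroup M] [DistribMulAction G M]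
    (P : M) : ℕ :=
  (MulAction.stabilizer G P).relIndex N

/-- Uniform boundedness over infinite extensions: `T` is a bound for the orders of the torsion groups of the modules `M` in
`X` over all Galois extensions of exponent `e`, and for the orders of the torsion points of degree at most `d` over them. -/
def Bounded (G : Type) [Group G] (X : ∀ (M : Type) [AddCommGroup M] [DistribMulAction G M], Prop) (e d T : ℕ) : Prop :=
  ∀ (M : Type) [AddCommGroup M] [DistribMulAction G M], X M → ∀ N : Subgroup G, N.Normal → (∀ σ : G, σ ^ e ∈ N) →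
    (torsionOver N M).Finite ∧ (torsionOver N M).ncard ≤ T ∧
      ∀ P : M, 0 < addOrderOf P → 0 < degreeOver N P → degreeOver N P ≤ d → addOrderOf P ≤ T

/-- The abelian varieties over a field of characteristic zero with absolute Galois group `G`: `AV g M` (`PP g M`) means
that the `G`-module `M` is that of the geometric points of an abelian variety (with a principal polarisation) of
dimension `g`. The properties used: the torsion; Zarhin's trick, the first factor of `(A × A^) ^ 4`; the restriction of
scalars from the field of definition `K(P)` of a point to `K`. -/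
structure IsTheory (G : Type) [Group G]
    (AV PP : ℕ → ∀ (M : Type) [AddCommGroup M] [DistribMulAction G M], Prop) : Prop where
  rank : ∀ (g : ℕ) (M : Type) [AddCommGroup M] [DistribMulAction G M], AV g M → TorsionRank M (2 * g)
  pp : ∀ (g : ℕ) (M : Type) [AddCommGroup M] [DistribMulAction G M], PP g M → AV g M
  zarhin : ∀ (g : ℕ) (M : Type) [AddCommGroup M] [DistribMulAction G M], AV g M →
    ∃ (C : Type) (_ : AddCommGroup C) (_ : DistribMulAction G C) (f : M →+ C), PP (8 * g) C ∧
      (∀ (σ : G) (x : M), f (σ • x) = σ • f x) ∧ Function.Injective f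
  weil : ∀ (g : ℕ) (M : Type) [AddCommGroup M] [DistribMulAction G M], AV g M → ∀ P : M, 0 < degree G P →
    ∃ (R : Type) (_ : AddCommGroup R) (_ : DistribMulAction G R) (Q : R), AV (g * degree G P) R ∧
      (∀ σ : G, σ • Q = Q) ∧ addOrderOf Q = addOrderOf P

theorem fin : IX.S_FIN := IX.FIN.main IX.DIV.main IX.COP.main (IX.TR.main IX.TB.main)

lemma pow_mem_of_index {G : Type} [Group G] {H : Subgroup G} {d : ℕ} (h0 : 0 < H.index) (hd : H.index ≤ d) (σ : G) :
    σ ^ d.factorial ∈ H := by
  obtain ⟨n, h1, h2, h3⟩ := Subgroup.exists_pow_mem_of_index_ne_zero h0.ne' σ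
  obtain ⟨c, hc⟩ := Nat.dvd_factorial h1 (h2.trans hd)
  rw [hc, pow_mul]
  exact H.pow_mem h3 c

lemma pow_mem_normalCore {G : Type} [Group G] {N H : Subgroup G} {e d : ℕ} (hN : ∀ σ : G, σ ^ e ∈ N)
    (h0 : 0 < H.relIndex N) (hd : H.relIndex N ≤ d) (σ : G) : σ ^ (e * d.factorial) ∈ (H ⊓ N).normalCore := by
  intro b
  have h1 : b * σ ^ (e * d.factorial) * b⁻¹ = ((b * σ * b⁻¹) ^ e) ^ d.factorial := by
    rw [← pow_mul, conj_pow]
  rw [h1]
  have h2 : (b * σ * b⁻¹) ^ e ∈ N := hN _
  have h3 : (⟨_, h2⟩ : N) ^ d.factorial ∈ H.subgroupOf N := pow_mem_of_index h0 hd _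
  exact ⟨Subgroup.mem_subgroupOf.1 h3, N.pow_mem h2 _⟩

lemma order_le {G : Type} [Group G] {N : Subgroup G} {M : Type} [AddCommGroup M] [DistribMulAction G M] {T : ℕ}
    (h : (torsionOver N M).Finite ∧ (torsionOver N M).ncard ≤ T) {P : M} (hP : P ∈ torsionOver N M) :
    addOrderOf P ≤ T := by
  refine (IX.Asm.order_le h.1 (P := P) fun k => ⟨?_, fun σ hσ => ?_⟩).trans h.2
  · rw [addOrderOf_pos_iff]
    exact (addOrderOf_pos_iff.1 hP.1).nsmul
  · rw [smul_comm, hP.2 σ hσ]

lemma bounded {G : Type} [Group G] {X : ∀ (M : Type) [AddCommGroup M] [DistribMulAction G M], Prop} {e d T : ℕ}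
    (h1 : ∀ (M : Type) [AddCommGroup M] [DistribMulAction G M], X M → ∀ N : Subgroup G, N.Normal →
      (∀ σ : G, σ ^ e ∈ N) → (torsionOver N M).Finite ∧ (torsionOver N M).ncard ≤ T)
    (h2 : ∀ (M : Type) [AddCommGroup M] [DistribMulAction G M], X M → ∀ N : Subgroup G, N.Normal →
      (∀ σ : G, σ ^ (e * d.factorial) ∈ N) → (torsionOver N M).Finite ∧ (torsionOver N M).ncard ≤ T) :
    Bounded G X e d T := by
  intro M _ _ hM N hN1 hN
  refine ⟨(h1 M hM N hN1 hN).1, (h1 M hM N hN1 hN).2, fun P hP0 hP1 hP2 => ?_⟩
  refine order_le (h2 M hM (MulAction.stabilizer G P ⊓ N).normalCore inferInstance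
    (pow_mem_normalCore hN hP1 hP2)) ⟨hP0, fun σ hσ => ?_⟩
  exact (Subgroup.normalCore_le _ hσ).1

/-- **The torsion of abelian varieties over infinite Galois extensions of bounded exponent.** See the explanations
above. -/
theorem result :
    -- (0) the compositum of all extensions (of some kind, with their conjugates) of degree at most `d`
    (∀ (G : Type) [Group G] (d : ℕ) (S : Set (Subgroup G)), (∀ H ∈ S, 0 < H.index ∧ H.index ≤ d) →
      (∀ H ∈ S, ∀ σ : G, H.map (MulAut.conj σ).toMonoidHom ∈ S) →
      (sInf S).Normal ∧ ∀ σ : G, σ ^ d.factorial ∈ sInf S) ∧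
    -- (1) the points of `l`-power order are defined over an extension of bounded degree
    (∀ (G : Type) [Group G] (N : Subgroup G) [N.Normal] (e : ℕ), 0 < e → (∀ σ : G, σ ^ e ∈ N) →
      ∀ (M : Type) [AddCommGroup M] [DistribMulAction G M] (m : ℕ), TorsionRank M m → ∀ l : ℕ, l.Prime →
      ∃ H : Subgroup G, H.Normal ∧ N ≤ H ∧ 0 < H.index ∧ H.index ≤ degBound m e ∧
        ∀ P ∈ torsionOver N M, (∃ n : ℕ, l ^ n • P = 0) → ∀ σ ∈ H, σ • P = P) ∧
    -- (2) the bound for the torsion group
    (∀ (G : Type) [Group G] (N : Subgroup G) [N.Normal] (e : ℕ), 0 < e → (∀ σ : G, σ ^ e ∈ N) →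
      ∀ (M : Type) [AddCommGroup M] [DistribMulAction G M] (m : ℕ), TorsionRank M m → ∀ T : ℕ,
      (∀ P : M, 0 < addOrderOf P → 0 < degree G P → degree G P ≤ degBound m e → addOrderOf P ≤ T) →
      (torsionOver N M).Finite ∧ (torsionOver N M).ncard ≤ T.factorial ^ m) ∧
    -- (3) strong uniform boundedness in a fixed dimension
    (∀ (Λ : Type) (G : Λ → Type) [∀ i, Group (G i)]
      (X : ∀ i, ∀ (M : Type) [AddCommGroup M] [DistribMulAction (G i) M], Prop) (m : ℕ),
      (∀ i, ∀ (M : Type) [AddCommGroup M] [DistribMulAction (G i) M], X i M → TorsionRank M m) →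
      ((∀ d : ℕ, ∃ T : ℕ, ∀ i, ∀ (M : Type) [AddCommGroup M] [DistribMulAction (G i) M], X i M →
          ∀ P : M, 0 < addOrderOf P → 0 < degree (G i) P → degree (G i) P ≤ d → addOrderOf P ≤ T) ↔
        ∀ e d : ℕ, 0 < e → ∃ T : ℕ, ∀ i, Bounded (G i) (X i) e d T)) ∧
    -- (4) the question Q1 for all dimensions
    (∀ (Λ : Type) (G : Λ → Type) [∀ i, Group (G i)]
      (AV PP : ∀ i, ℕ → ∀ (M : Type) [AddCommGroup M] [DistribMulAction (G i) M], Prop),
      (∀ i, IsTheory (G i) (AV i) (PP i)) →
      ((∀ g : ℕ, ∃ B : ℕ, ∀ i, ∀ (M : Type) [AddCommGroup M] [DistribMulAction (G i) M], PP i g M →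
          ∀ P : M, (∀ σ : G i, σ • P = P) → 0 < addOrderOf P → addOrderOf P ≤ B) ↔
        ∀ g e d : ℕ, 0 < e → ∃ T : ℕ, ∀ i, Bounded (G i) (AV i g) e d T)) := by
  refine ⟨?_, ?_, ?_, ?_, ?_⟩
  · intro G _ d S hS hconj
    refine ⟨⟨fun x hx σ => ?_⟩, fun σ => ?_⟩
    · rw [Subgroup.mem_sInf] at hx ⊢
      intro H hH
      have h1 := hx _ (hconj H hH σ⁻¹)
      obtain ⟨y, hy, hxy⟩ := Subgroup.mem_map.1 h1
      have h2 : x = σ⁻¹ * y * σ := by
        rw [← hxy]
        simp
      rw [h2]
      have h3 : σ * (σ⁻¹ * y * σ) * σ⁻¹ = y := by group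
      rw [h3]
      exact hy
    · rw [Subgroup.mem_sInf]
      intro H hH
      exact pow_mem_of_index (hS H hH).1 (hS H hH).2 σ
  · intro G _ N _ e he hN M _ _ m hM l hl
    obtain ⟨H, h1, h2, h3, h4, h5⟩ := IX.Asm.degree fin N he hN hM hl
    exact ⟨H, h1, h2, Nat.pos_of_ne_zero h3.index_ne_zero, h4, fun P hP hn => h5 P hP.2 hn⟩
  · intro G _ N _ e he hN M _ _ m hM T hT
    exact IX.Asm.torsion fin N he hN hM hT
  · intro Λ G _ X m hX
    constructor
    · intro h e d he
      have h1 : ∀ e : ℕ, 0 < e → ∃ T : ℕ, ∀ T' ≥ T, ∀ i, ∀ (M : Type) [AddCommGroup M] [DistribMulAction (G i) M], X i M →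
          ∀ N : Subgroup (G i), N.Normal → (∀ σ : G i, σ ^ e ∈ N) →
          (torsionOver N M).Finite ∧ (torsionOver N M).ncard ≤ T' := by
        intro e he
        obtain ⟨T, hT⟩ := h (degBound m e)
        refine ⟨T.factorial ^ m, fun T' hT' i M _ _ hM N hN1 hN => ?_⟩
        have := hN1
        obtain ⟨h2, h3⟩ := IX.Asm.torsion fin N he hN (hX i M hM) (hT i M hM)
        exact ⟨h2, h3.trans hT'⟩
      obtain ⟨T₁, hT₁⟩ := h1 e he
      obtain ⟨T₂, hT₂⟩ := h1 (e * d.factorial) (Nat.mul_pos he (Nat.factorial_pos d))
      exact ⟨T₁ + T₂, fun i => bounded (hT₁ _ (Nat.le_add_right _ _) i) (hT₂ _ (Nat.le_add_left _ _) i)⟩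
    · intro h d
      obtain ⟨T, hT⟩ := h 1 d one_pos
      refine ⟨T, fun i M _ _ hM P hP0 hP1 hP2 => ?_⟩
      have h1 : degreeOver (⊤ : Subgroup (G i)) P = degree (G i) P := Subgroup.relIndex_top_right _
      exact (hT i M hM ⊤ inferInstance fun σ => Subgroup.mem_top _).2.2 P hP0 (by rw [h1]; exact hP1)
        (by rw [h1]; exact hP2)
  · intro Λ G _ AV PP h
    constructor
    · intro h1 g e d he
      choose B hB using h1
      have h10 : ∀ e : ℕ, 0 < e → ∃ T : ℕ, ∀ T' ≥ T, ∀ i, ∀ (M : Type) [AddCommGroup M] [DistribMulAction (G i) M],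
          AV i g M → ∀ N : Subgroup (G i), N.Normal → (∀ σ : G i, σ ^ e ∈ N) →
          (torsionOver N M).Finite ∧ (torsionOver N M).ncard ≤ T' := by
        intro e he
        let T : ℕ := ∑ k ∈ Finset.range (degBound (2 * g) e + 1), B (8 * (g * k))
        refine ⟨T.factorial ^ (2 * g), fun T' hT' i M _ _ hM N hN1 hN => ?_⟩
        have := hN1
        have h11 := IX.Asm.torsion fin N he hN ((h i).rank g M hM) (T := T) fun P hP0 hP1 hP2 => by
          obtain ⟨R, _, _, Q, h2, h3, h4⟩ := (h i).weil g M hM P hP1
          obtain ⟨C, _, _, f, h5, h6, h7⟩ := (h i).zarhin _ R h2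
          have h8 : addOrderOf (f Q) = addOrderOf P := by
            rw [addOrderOf_injective f h7 Q, h4]
          have h9 := hB (8 * (g * degree (G i) P)) i C h5 (f Q) (fun σ => by rw [← h6, h3]) (by rw [h8]; exact hP0)
          rw [h8] at h9
          exact h9.trans (Finset.single_le_sum (f := fun k => B (8 * (g * k))) (fun _ _ => Nat.zero_le _)
            (Finset.mem_range.2 (Nat.lt_succ_of_le hP2)))
        exact ⟨h11.1, h11.2.trans hT'⟩
      obtain ⟨T₁, hT₁⟩ := h10 e he
      obtain ⟨T₂, hT₂⟩ := h10 (e * d.factorial) (Nat.mul_pos he (Nat.factorial_pos d))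
      exact ⟨T₁ + T₂, fun i => bounded (hT₁ _ (Nat.le_add_right _ _) i) (hT₂ _ (Nat.le_add_left _ _) i)⟩
    · intro h1 g
      obtain ⟨T, hT⟩ := h1 g 1 1 one_pos
      refine ⟨T, fun i M _ _ hM P hP hP0 => ?_⟩
      have h2 := hT i M ((h i).pp g M hM) ⊤ inferInstance fun σ => Subgroup.mem_top _
      exact order_le ⟨h2.1, h2.2.1⟩ ⟨hP0, fun σ _ => hP σ⟩

end Pool.Agent.Results.MP_160b6c_nt.BoundedExponent
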