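import Pool.Agent.Helper91.DF.Core

/-!
# Torsion points and cyclic isogenies of all abelian varieties isogenous to products of powers: bounds which do not
# depend on the exponents

Let `K` be a number field (or any field of characteristic zero), and let the abelian variety `A` over `K` be isogenous
over `K` to `B_1 ^ k_1 × ⋯ × B_r ^ k_r`, `d_i = 2 dim B_i`. Let `C` be a cyclic subgroup of `A` of order `N`, stable
under the Galois group `G` of `K`, which acts on `C` by the character `χ`; for example `χ = 1` and `C` is generated by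
a `K`-rational torsion point of order `N`.

(1) Then `N = ∏_i ∏_{j ≤ d_i} c_ij`, where for each `j` there is an abelian variety `B_ij` which is isogenous over `K`
to `B_i` and has a cyclic subgroup of order `c_ij`, stable under `G`, which acts on it by `χ` modulo `c_ij`. Neither
the exponents `k_i` nor the kernel of the isogeny play a role.

(2) So if the `K`-rational torsion points on the abelian varieties of dimension `dim B_i` have orders at most `m_i`, then
those on `A` have orders at most `∏_i m_i ^ (2 dim B_i)`. For elliptic curves `B_i` there is such a bound by Mazur and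
Merel, so that the orders of the `K`-rational torsion points of ALL abelian varieties isogenous to products of powers of
`r` elliptic curves, of any dimension, have a bound which depends on `K` and `r` only.

(3) The conjecture on uniform boundedness for all dimensions (Q1 for all `g`, for principally polarised abelian
varieties) is equivalent to its dimension free form: for each `D` there is one bound for the orders of the rational
torsion points on all abelian varieties of ANY dimension whose pairwise non-isogenous simple factors have dimensions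
with sum at most `D`. The same is true uniformly in families of fields, for example for all extensions of `K` of
degree at most `d`.

(In a fixed dimension a filtration by abelian subvarieties bounds the torsion of `A` by that of all its simple factors
with their multiplicities; this gives a bound which grows with the `k_i`.)

An abelian variety `B` over `K` enters through the module `B(K̄)` of `G = Gal(K̄/K)`. The points `B(K)` are the fixed
elements, for every `L` the group `B(K̄)[L]` is generated by `2 dim B` elements, and the quotients by finite stable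
subgroups are abelian varieties isogenous to `B`. An isogeny is an equivariant surjective homomorphism with finite
kernel.

Proof of (1). Let `x` be a torsion element of `∏ B_i(K̄) ^ k_i` above a generator `P` of `C`, `t_1, …, t_D` generators
of the groups `B_i(K̄)[L]`, `L x = 0`, and let `S_k` be the left ideal of the `y ∈ ℤ[G]` with `y t_1 = ⋯ = y t_k = 0`.
The elements of `S_D` kill `x`, hence `P`, so that `χ(S_D) = 0` in `ℤ/N`. Let `χ(S_k) = b_k ℤ/N`, `b_k ∣ N`, so that
`b_0 = 1`, `b_D = N`, `b_(k-1) ∣ b_k`, and let `y` be an element of `S_(k-1)` with `χ(y) = b_(k-1)`. Then the class of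
`y t_k` modulo the subgroup of all `z t_k`, `z ∈ S_(k-1)`, `χ(z) ∈ b_k ℤ/N`, has order `b_k / b_(k-1)`, and `G` acts
on it by `χ`.
-/

set_option autoImplicit false

open Pool.Agent.Helper91

namespace Pool.Agent.Results.MP_160b6c_nt.DimensionFree

/-- An isogeny: an equivariant surjective homomorphism with a finite kernel. -/
structure IsIsogeny (G : Type) [Group G] {M A : Type} [AddCommGroup M] [DistribMulAction G M] [AddCommGroup A]
    [DistribMulAction G A] (f : M →+ A) : Prop where
  equivariant : ∀ (σ : G) (x : M), f (σ • x) = σ • f x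
  surjective : Function.Surjective f
  finite_ker : Finite f.ker

/-- For every `L > 0` the elements of `M` killed by `L` form a group generated by `d` elements. (For an abelian variety
`B` the module `M = B(K̄)` has this property with `d = 2 dim B`.) -/
def TorsionRank (M : Type) [AddCommGroup M] (d : ℕ) : Prop :=
  ∀ L : ℕ, 0 < L → ∃ t : Fin d → M, (∀ j, L • t j = 0) ∧
    ∀ x : M, L • x = 0 → x ∈ AddSubgroup.closure (Set.range t)

/-- Some quotient `M / Ψ` by a finite stable subgroup has an element of order `c`, the class of `q`, on which `G` acts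
by `χ`. (For `M = B(K̄)`: the abelian variety `B / Ψ`, isogenous to `B`, has a stable cyclic subgroup of order `c` with
this action; for `χ = 1`, a `K`-rational point of order `c`.) -/
def QuotientHas {G : Type} [Group G] (M : Type) [AddCommGroup M] [DistribMulAction G M] {N : ℕ} (χ : G →* ZMod N)
    (c : ℕ) : Prop :=
  ∃ Ψ : AddSubgroup M, Finite Ψ ∧ (∀ σ : G, ∀ z ∈ Ψ, σ • z ∈ Ψ) ∧
    ∃ q : M, (∀ (σ : G) (m : ℤ), (m : ZMod N) = χ σ → σ • q - m • q ∈ Ψ) ∧
      addOrderOf (QuotientAddGroup.mk q : M ⧸ Ψ) = c

/-- The abelian varieties over a field of characteristic zero with absolute Galois group `G`: `AV g M` (`PP g M`) means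
that the `G`-module `M` is that of the geometric points of an abelian variety (with a principal polarisation) of
dimension `g`. The properties used: the torsion; the quotients by finite stable subgroups; Zarhin's trick, the first
factor of `(A × A^) ^ 4`. -/
structure IsTheory (G : Type) [Group G]
    (AV PP : ℕ → ∀ (M : Type) [AddCommGroup M] [DistribMulAction G M], Prop) : Prop where
  rank : ∀ (g : ℕ) (M : Type) [AddCommGroup M] [DistribMulAction G M], AV g M → TorsionRank M (2 * g)
  quotient : ∀ (g : ℕ) (M : Type) [AddCommGroup M] [DistribMulAction G M], AV g M → ∀ Ψ : AddSubgroup M, Finite Ψ →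
    (∀ σ : G, ∀ z ∈ Ψ, σ • z ∈ Ψ) → ∃ (M' : Type) (_ : AddCommGroup M') (_ : DistribMulAction G M') (f : M →+ M'),
      AV g M' ∧ IsIsogeny G f ∧ f.ker = Ψ
  pp : ∀ (g : ℕ) (M : Type) [AddCommGroup M] [DistribMulAction G M], PP g M → AV g M
  zarhin : ∀ (g : ℕ) (M : Type) [AddCommGroup M] [DistribMulAction G M], AV g M →
    ∃ (C : Type) (_ : AddCommGroup C) (_ : DistribMulAction G C) (f : M →+ C), PP (8 * g) C ∧
      (∀ (σ : G) (x : M), f (σ • x) = σ • f x) ∧ Function.Injective f

/-- The rational (that is, fixed) torsion points of the members of the class `X` have orders at most `m`. -/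
def OrdersLe (G : Type) [Group G] (X : ∀ (M : Type) [AddCommGroup M] [DistribMulAction G M], Prop) (m : ℕ) : Prop :=
  ∀ (M : Type) [AddCommGroup M] [DistribMulAction G M], X M →
    ∀ P : M, (∀ σ : G, σ • P = P) → 0 < addOrderOf P → addOrderOf P ≤ m

/-- `A` is isogenous to a product of powers of abelian varieties whose dimensions have a sum at most `D`. (The exponents,
the cardinalities of the `κ i`, and the dimension of `A` are arbitrary.) -/
def ReducedDimLe (G : Type) [Group G] (AV : ℕ → ∀ (M : Type) [AddCommGroup M] [DistribMulAction G M], Prop) (D : ℕ)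
    (A : Type) [AddCommGroup A] [DistribMulAction G A] : Prop :=
  ∃ (ι : Type) (_ : Fintype ι) (g : ι → ℕ) (κ : ι → Type) (_ : ∀ i, Fintype (κ i)) (M : ι → Type)
    (_ : ∀ i, AddCommGroup (M i)) (_ : ∀ i, DistribMulAction G (M i)) (f : (∀ i, κ i → M i) →+ A),
    (∀ i, AV (g i) (M i)) ∧ ∑ i, g i ≤ D ∧ IsIsogeny G f

lemma quotientHas_of {G : Type} [Group G] {M : Type} [AddCommGroup M] [DistribMulAction G M] {N : ℕ}
    {χ : G →* ZMod N} {Ψ : AddSubgroup M} {q : M} {c : ℕ} (hf : Finite Ψ) (h : DF.IsPoint χ Ψ q c) :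
    QuotientHas M χ c := by
  refine ⟨Ψ, hf, h.1, q, h.2.1, Nat.dvd_antisymm ?_ ?_⟩
  · rw [addOrderOf_dvd_iff_nsmul_eq_zero, ← QuotientAddGroup.mk_nsmul, QuotientAddGroup.eq_zero_iff]
    have := (h.2.2 c).2 dvd_rfl
    rwa [natCast_zsmul] at this
  · have h1 : (addOrderOf (QuotientAddGroup.mk q : M ⧸ Ψ) : ℤ) • q ∈ Ψ := by
      rw [natCast_zsmul, ← QuotientAddGroup.eq_zero_iff, QuotientAddGroup.mk_nsmul, addOrderOf_nsmul_eq_zero]
    exact_mod_cast (h.2.2 _).1 h1

theorem factor {G : Type} [Group G] {ι : Type} [Fintype ι] {M : ι → Type} [∀ i, AddCommGroup (M i)]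
    [∀ i, DistribMulAction G (M i)] {d : ι → ℕ} (hd : ∀ i, TorsionRank (M i) (d i)) {κ : ι → Type} {A : Type}
    [AddCommGroup A] [DistribMulAction G A] {f : (∀ i, κ i → M i) →+ A} (hf : IsIsogeny G f) {P : A} {N : ℕ}
    (hN : 0 < N) (χ : G →* ZMod N) (hP : ∀ (σ : G) (m : ℤ), (m : ZMod N) = χ σ → σ • P = m • P)
    (hP0 : addOrderOf P = N) :
    ∃ c : ∀ i, Fin (d i) → ℕ, (∀ i j, 0 < c i j ∧ QuotientHas (M i) χ (c i j)) ∧ N = ∏ i, ∏ j, c i j := by
  obtain ⟨Ψ, q, c, h1, h2⟩ := DF.transfer (M := M) hd f hf.equivariant hf.surjective hf.finite_ker hN χ hP hP0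
  exact ⟨c, fun i j => ⟨(h1 i j).1, quotientHas_of (h1 i j).2.1 (h1 i j).2.2⟩, h2.symm⟩

theorem bound {G : Type} [Group G] {AV PP : ℕ → ∀ (M : Type) [AddCommGroup M] [DistribMulAction G M], Prop}
    (h : IsTheory G AV PP) {ι : Type} [Fintype ι] {g m : ι → ℕ} (hm : ∀ i, OrdersLe G (AV (g i)) (m i)) {M : ι → Type}
    [∀ i, AddCommGroup (M i)] [∀ i, DistribMulAction G (M i)] (hM : ∀ i, AV (g i) (M i)) {κ : ι → Type} {A : Type}
    [AddCommGroup A] [DistribMulAction G A] {f : (∀ i, κ i → M i) →+ A} (hf : IsIsogeny G f) {P : A}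
    (hP : ∀ σ : G, σ • P = P) (hP0 : 0 < addOrderOf P) : addOrderOf P ≤ ∏ i, m i ^ (2 * g i) := by
  obtain ⟨c, h1, h2⟩ := factor (fun i => h.rank _ _ (hM i)) hf hP0 (1 : G →* ZMod (addOrderOf P))
    (fun σ a ha => by
      rw [hP]
      have h3 : ((a - 1 : ℤ) : ZMod (addOrderOf P)) = 0 := by
        push_cast
        rw [ha]
        simp
      rw [ZMod.intCast_zmod_eq_zero_iff_dvd, addOrderOf_dvd_iff_zsmul_eq_zero, sub_smul, one_smul] at h3
      exact (sub_eq_zero.1 h3).symm) rfl
  have h3 : ∀ i j, c i j ≤ m i := by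
    intro i j
    obtain ⟨h4, Ψ, h5, h6, q, h7, h8⟩ := h1 i j
    obtain ⟨M', _, _, f', h9, h10, rfl⟩ := h.quotient _ _ (hM i) Ψ h5 h6
    have h11 : addOrderOf (f' q) = c i j := by
      rw [← h8]
      exact addOrderOf_injective (QuotientAddGroup.kerLift f') (QuotientAddGroup.kerLift_injective f')
        (QuotientAddGroup.mk q)
    rw [← h11]
    refine hm i M' h9 (f' q) (fun σ => ?_) (by rw [h11]; exact h4)
    have h12 := h7 σ 1 (by simp)
    rw [AddMonoidHom.mem_ker, map_sub, one_smul, h10.equivariant] at h12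
    exact sub_eq_zero.1 h12
  rw [h2]
  refine Finset.prod_le_prod' fun i _ => ?_
  calc ∏ j, c i j ≤ ∏ _j : Fin (2 * g i), m i := Finset.prod_le_prod' fun j _ => h3 i j
    _ = m i ^ (2 * g i) := by rw [Finset.prod_const, Finset.card_univ, Fintype.card_fin]

/-- **Torsion points and cyclic isogenies of abelian varieties isogenous to products of powers.** See the explanations
above. -/
theorem result :
    -- (1) the order of a stable cyclic subgroup is a product of such orders on quotients of the factors
    (∀ (G : Type) [Group G] (ι : Type) [Fintype ι] (M : ι → Type) [∀ i, AddCommGroup (M i)]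
      [∀ i, DistribMulAction G (M i)] (d : ι → ℕ), (∀ i, TorsionRank (M i) (d i)) →
      ∀ (κ : ι → Type) (A : Type) [AddCommGroup A] [DistribMulAction G A] (f : (∀ i, κ i → M i) →+ A),
      IsIsogeny G f → ∀ (P : A) (N : ℕ), 0 < N → addOrderOf P = N → ∀ χ : G →* ZMod N,
      (∀ (σ : G) (m : ℤ), (m : ZMod N) = χ σ → σ • P = m • P) →
      ∃ c : ∀ i, Fin (d i) → ℕ, (∀ i j, QuotientHas (M i) χ (c i j)) ∧ N = ∏ i, ∏ j, c i j) ∧
    -- (2) the bound for rational torsion points
    (∀ (G : Type) [Group G] (AV PP : ℕ → ∀ (M : Type) [AddCommGroup M] [DistribMulAction G M], Prop),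
      IsTheory G AV PP → ∀ (ι : Type) [Fintype ι] (g m : ι → ℕ), (∀ i, OrdersLe G (AV (g i)) (m i)) →
      ∀ (M : ι → Type) [∀ i, AddCommGroup (M i)] [∀ i, DistribMulAction G (M i)], (∀ i, AV (g i) (M i)) →
      ∀ (κ : ι → Type) (A : Type) [AddCommGroup A] [DistribMulAction G A] (f : (∀ i, κ i → M i) →+ A),
      IsIsogeny G f → ∀ P : A, (∀ σ : G, σ • P = P) → 0 < addOrderOf P → addOrderOf P ≤ ∏ i, m i ^ (2 * g i)) ∧
    -- (3) uniform boundedness is equivalent to its dimension free form
    (∀ (Λ : Type) (G : Λ → Type) [∀ l, Group (G l)]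
      (AV PP : ∀ l, ℕ → ∀ (M : Type) [AddCommGroup M] [DistribMulAction (G l) M], Prop),
      (∀ l, IsTheory (G l) (AV l) (PP l)) →
      ((∀ g : ℕ, ∃ m : ℕ, ∀ l, OrdersLe (G l) (PP l g) m) ↔
        ∀ D : ℕ, ∃ m : ℕ, ∀ l, OrdersLe (G l) (ReducedDimLe (G l) (AV l) D) m)) := by
  refine ⟨?_, ?_, ?_⟩
  · intro G _ ι _ M _ _ d hd κ A _ _ f hf P N hN hP0 χ hP
    obtain ⟨c, h1, h2⟩ := factor hd hf hN χ hP hP0
    exact ⟨c, fun i j => (h1 i j).2, h2⟩
  · intro G _ AV PP h ι _ g m hm M _ _ hM κ A _ _ f hf P hP hP0
    exact bound h hm hM hf hP hP0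
  · intro Λ G _ AV PP h
    constructor
    · intro h1 D
      choose m hm using h1
      let m' : ℕ := ∑ g ∈ Finset.range (D + 1), m (8 * g) + 1
      have hm' : ∀ g ≤ D, ∀ l, OrdersLe (G l) (AV l g) m' := by
        intro g hg l M _ _ hM P hP hP0
        obtain ⟨C, _, _, f, h2, h3, h4⟩ := (h l).zarhin g M hM
        have h5 : addOrderOf (f P) = addOrderOf P := addOrderOf_injective f h4 P
        have h6 := hm (8 * g) l C h2 (f P) (fun σ => by rw [← h3, hP]) (by rw [h5]; exact hP0)
        rw [h5] at h6
        refine h6.trans ((Finset.single_le_sum (f := fun g => m (8 * g)) (fun _ _ => Nat.zero_le _)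
          (Finset.mem_range.2 (Nat.lt_succ_of_le hg))).trans (Nat.le_succ _))
      refine ⟨m' ^ (2 * D), fun l A _ _ hA P hP hP0 => ?_⟩
      obtain ⟨ι, _, g, κ, _, M, _, _, f, h2, h3, h4⟩ := hA
      have h5 : ∀ i, g i ≤ D := fun i =>
        (Finset.single_le_sum (fun _ _ => Nat.zero_le _) (Finset.mem_univ i)).trans h3
      have h6 := bound (h l) (m := fun _ => m') (fun i => hm' (g i) (h5 i) l) h2 h4 hP hP0
      refine h6.trans ?_
      rw [Finset.prod_pow_eq_pow_sum, ← Finset.mul_sum]
      exact Nat.pow_le_pow_right (Nat.succ_pos _) (Nat.mul_le_mul_left 2 h3)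
    · intro h1 g
      obtain ⟨m, hm⟩ := h1 g
      refine ⟨m, fun l M _ _ hM P hP hP0 => ?_⟩
      refine hm l M ⟨Unit, inferInstance, fun _ => g, fun _ => Unit, fun _ => inferInstance, fun _ => M,
        fun _ => inferInstance, fun _ => inferInstance,
        (Pi.evalAddMonoidHom (fun _ : Unit => M) ()).comp (Pi.evalAddMonoidHom (fun _ : Unit => Unit → M) ()),
        fun _ => (h l).pp g M hM, by simp, ⟨fun _ _ => rfl, fun x => ⟨fun _ _ => x, rfl⟩, ?_⟩⟩ P hP hP0
      refine @Finite.of_subsingleton _ ⟨fun a b => Subtype.ext (funext fun i => funext fun j => ?_)⟩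
      have ha : a.1 () () = 0 := a.2
      have hb : b.1 () () = 0 := b.2
      exact ha.trans hb.symm

end Pool.Agent.Results.MP_160b6c_nt.DimensionFree
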