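import Pool.Agent.Helper53.UBT.Equiv

/-!
# Uniform boundedness of torsion and planar moduli spaces

An **abelian scheme** of relative dimension `g` over a scheme `S` is a group object `A` in the category of
the schemes over `S` (Mathlib's `GrpObj A`) which is proper, smooth of relative dimension `g` and has
geometrically integral fibres (`IsAbelianScheme g A`). Schemes are Mathlib's schemes, and `FT True X` says
that the scheme `X` over `ℚ` is separated and of finite type. Let `F` be an arbitrary class of number
fields, for example

* the class of the fields isomorphic to a fixed number field `K`, or
* the class `deg d` of all number fields of degree at most `d`.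

We compare the following two statements on a scheme `S`:

* `BoundedAt g F S`: for each abelian scheme `A` over `S` of relative dimension `g` there is a bound for the
  orders of all the points of finite order in `A_s(L)`, for all `L` in `F` and all `s ∈ S(L)`;
* `NonDenseAt g F S`: for each abelian scheme `A` over `S` of relative dimension `g` and each section
  `σ ∈ A(S)` of infinite order, the set of the points of `S` which come from some `s ∈ S(L)`, with `L` in
  `F`, for which `σ(s)` has finite order in `A_s(L)`, is not Zariski dense in `S`.

`Bounded g S` and `NonDense g S` are these statements for all the classes `deg d`, `d = 0, 1, 2, …`.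

*Relation to question Q1.* There is an abelian scheme over a quasi-projective scheme over `ℚ` such that every
principally polarised abelian variety of dimension `g` over a field `K` of characteristic zero is its fibre at
a `K`-rational point (rigidify the third power of the symmetric line bundle of the polarisation). So, if
`BoundedAt g F X` is true for all schemes `X` (separated, of finite type over `ℚ`) and for the class `F` of the
fields isomorphic to `K`, then Q1 is true for `K` and `g`; conversely Q1 for `K` and `8 g` implies these
statements for `g` by Zarhin's trick. In particular, taken over all `g`, Q1 for the field `K` is equivalent to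
these statements for the class of the fields isomorphic to `K`, and also (this is the first of the listed
equivalences) to the statements `Bounded g X` for all `X`. The statements `NonDense g Y` for all `g` and all
integral `Y` are the second listed equivalence; varieties over number fields are varieties over `ℚ`, and
the degrees change by a factor at most `[K : ℚ]`.

A matroid `M` of rank three on the set `Fin 4 ⊕ Fin m` is **framed** if any three of the four elements of
`Fin 4` form a base; it is **simple** if any two elements are independent. Let `modS ℚ M` be the moduli
space over `ℚ` of the configurations of `m + 4` different points in the projective plane in which exactly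
the triples prescribed by `M` are collinear, modulo projective transformations: the four points of `Fin 4`
are the points of `e_1, e_2, e_3, e_1 + e_2 + e_3`, and the other ones have normalised coordinates.
`SmoothMod ℚ ⊤ M` says that `M` is simple and framed, and that the affine scheme `modS ℚ M` is integral and
smooth.

**Theorem.**

1. For **each** `g` and **each** class `F` of number fields (so in particular for fixed `g` and for the rational
   points over a fixed field `K`) the following are equivalent:
   * `BoundedAt g F X` for all separated schemes `X` of finite type over `ℚ`;
   * `NonDenseAt g F Y` for all integral separated schemes `Y` of finite type over `ℚ`;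
   * `BoundedAt g F (modS ℚ M)` for all simple framed matroids `M` with smooth integral moduli space;
   * `NonDenseAt g F (modS ℚ M)` for all simple framed matroids `M` with smooth integral moduli space.
2. There is **one sequence** of simple framed matroids `M_0, M_1, M_2, …` with smooth integral moduli spaces
   `U_i = modS ℚ M_i`, such that each integral separated scheme of finite type over `ℚ` is dominated by
   `U_i` for all large `i`, and such that for **each** `g` the following are equivalent:
   * `Bounded g X` for all separated schemes `X` of finite type over `ℚ`;
   * `NonDense g Y` for all integral separated schemes `Y` of finite type over `ℚ`;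
   * `Bounded g U_i` for infinitely many `i`;
   * `NonDense g U_i` for infinitely many `i`.

So uniform boundedness of torsion is decided, dimension by dimension, on the moduli spaces of planar
configurations of points. Nothing is assumed: the abelian schemes, the points and the moduli spaces are
those of Mathlib and of the definitions below, and the theorem has no hypotheses.

*Proof.* The implication from non-density to boundedness is a noetherian induction on the closed subsets of
the total space of `A`, with the tautological section over each of them; the reverse implication uses that
the locus where a multiple of the section vanishes is closed. Universality: each integral scheme contains one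
of the moduli spaces as an open subscheme. Non-density is inherited along open immersions for each class `F`;
for the fields of bounded degree it is inherited along dominant morphisms `U → S`, since over a nonempty
open subset of `S` the points with coordinates in `L` lift to points in a given nonempty open subset of `U`
with coordinates in an extension of `L` of bounded degree (`lift_scheme`).
-/

set_option autoImplicit false

open CategoryTheory AlgebraicGeometry Pool.Agent.Y116.UV Pool.Agent.Z125.UN Pool.Agent.Q193.LT
  Pool.Agent.Helper3.GU Pool.Agent.Helper13.RM Pool.Agent.Helper10.PC Pool.Agent.Helper53.OS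
  Pool.Agent.Helper53.UBT

namespace Pool.Agent.Results.MP_160b6c_nt.PlanarBases

/-- **Uniform boundedness of torsion and planar moduli spaces.** See the explanations above. -/
theorem result :
    (∀ (g : ℕ) (F : Fields), List.TFAE
      [∀ X : Sch ℚ, FT True X → BoundedAt g F X.left,
        ∀ Y : Sch ℚ, FT True Y → IsIntegral Y.left → NonDenseAt g F Y.left,
        ∀ (n : ℕ) (M : Matroid (Fin 4 ⊕ Fin n)), SmoothMod ℚ ⊤ M → BoundedAt g F (modS ℚ M).left,
        ∀ (n : ℕ) (M : Matroid (Fin 4 ⊕ Fin n)), SmoothMod ℚ ⊤ M →
          NonDenseAt g F (modS ℚ M).left]) ∧
    ∃ M : ℕ → Mat, (∀ i, SmoothMod ℚ ⊤ (M i).2) ∧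
      (∀ X : Sch ℚ, FT True X → IsIntegral X.left → ∃ i₀, ∀ i, i₀ ≤ i →
        Dominates (modS ℚ (M i).2) X) ∧
      ∀ g : ℕ, List.TFAE
        [∀ X : Sch ℚ, FT True X → Bounded g X.left,
          ∀ Y : Sch ℚ, FT True Y → IsIntegral Y.left → NonDense g Y.left,
          {i | Bounded g (modS ℚ (M i).2).left}.Infinite,
          {i | NonDense g (modS ℚ (M i).2).left}.Infinite] := by
  have hft : ∀ (n : ℕ) (M : Matroid (Fin 4 ⊕ Fin n)), FT True (modS ℚ M) := fun n M => ft_aff True
  have hint : ∀ (n : ℕ) (M : Matroid (Fin 4 ⊕ Fin n)), SmoothMod ℚ ⊤ M →
      IsIntegral (modS ℚ M).left := by
    intro n M hM
    have h1 := hM.domain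
    change IsIntegral (Spec (.of (ModR ℚ M)))
    infer_instance
  have h0 : ∀ (g : ℕ) (F : Fields), List.TFAE
      [∀ X : Sch ℚ, FT True X → BoundedAt g F X.left,
        ∀ Y : Sch ℚ, FT True Y → IsIntegral Y.left → NonDenseAt g F Y.left,
        ∀ (n : ℕ) (M : Matroid (Fin 4 ⊕ Fin n)), SmoothMod ℚ ⊤ M → BoundedAt g F (modS ℚ M).left,
        ∀ (n : ℕ) (M : Matroid (Fin 4 ⊕ Fin n)), SmoothMod ℚ ⊤ M →
          NonDenseAt g F (modS ℚ M).left] := by
    intro g F
    tfae_have 1 → 3 := fun h n M _ => h _ (hft n M)
    tfae_have 3 → 4 := by
      intro h n M hM
      have := hint n M hM
      exact (h n M hM).nonDenseAt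
    tfae_have 4 → 2 := by
      intro h Y hY hYi
      obtain ⟨n, M, j, hM, hj⟩ := exists_open_smooth Y hY hYi
      have h1 := hint n M hM
      have h2 : Nonempty (modS ℚ M).left := inferInstance
      exact NonDenseAt.of_open j.left (h n M hM)
    tfae_have 2 → 1 := fun h X hX => boundedAt_of_nonDenseAt h X hX
    tfae_finish
  refine ⟨h0, ?_⟩
  obtain ⟨M, hM, hdo⟩ := exists_cofinal
  refine ⟨M, hM, hdo, fun g => ?_⟩
  tfae_have 1 → 3 := by
    intro h
    have h2 : {i | Bounded g (modS ℚ (M i).2).left} = Set.univ :=
      Set.eq_univ_of_forall fun i => h _ (hft _ _)
    rw [h2]
    exact Set.infinite_univ
  tfae_have 3 → 4 := by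
    intro h
    refine h.mono fun i hi d => ?_
    have := hint _ _ (hM i)
    exact (hi d).nonDenseAt
  tfae_have 4 → 2 := by
    intro h Y hY hYi
    obtain ⟨i₀, hi₀⟩ := hdo Y hY hYi
    obtain ⟨i, hi1, hi2⟩ := h.exists_gt i₀
    exact nonDense_of_dominates (hi₀ i hi2.le) hYi hi1
  tfae_have 2 → 1 := fun h X hX d =>
    boundedAt_of_nonDenseAt (fun Y hY hYi => h Y hY hYi d) X hX
  tfae_finish

end Pool.Agent.Results.MP_160b6c_nt.PlanarBases
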